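import Pool.Agent.H295R3.D6.Stmts

set_option autoImplicit false

open Finset

namespace Pool.Agent.H672R3.D6

open Pool.Agent.H295R3.D6

theorem blk_mul_factorial {a b : ℕ} (h : a ≤ b) : blk a b * a.factorial = b.factorial := by
  induction b, h using Nat.le_induction with
  | base => simp [blk]
  | succ b hb ih =>
    have h1 : Ioc a (b + 1) = insert (b + 1) (Ioc a b) := by
      ext x; simp only [mem_Ioc, mem_insert]; omega
    have h2 : blk a (b + 1) = (b + 1) * blk a b := by
      unfold blk
      rw [h1, Finset.prod_insert (by simp)]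
    rw [h2, mul_assoc, ih, Nat.factorial_succ]

theorem isSquare_of_mul_sq {a c : ℕ} (hc : c ≠ 0) (h : IsSquare (a * c ^ 2)) : IsSquare a := by
  obtain ⟨d, hd⟩ := h
  have h1 : c ^ 2 ∣ d ^ 2 := ⟨a, by rw [sq d, ← hd]; ring⟩
  have h2 : c ∣ d := (Nat.pow_dvd_pow_iff two_ne_zero).1 h1
  obtain ⟨e, rfl⟩ := h2
  refine ⟨e, ?_⟩
  have h3 : 0 < c ^ 2 := by positivity
  apply Nat.eq_of_mul_eq_mul_right h3
  rw [hd]; ring

theorem prod_Icc_one_six (f : ℕ → ℕ) :
    ∏ i ∈ Icc 1 6, f i = f 1 * f 2 * f 3 * f 4 * f 5 * f 6 := by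
  rw [show Icc 1 6 = {1, 2, 3, 4, 5, 6} by decide]
  simp [Finset.prod_insert, mul_assoc]

theorem prod_Icc_one_five (f : ℕ → ℕ) :
    ∏ i ∈ Icc 1 5, f i = f 1 * f 2 * f 3 * f 4 * f 5 := by
  rw [show Icc 1 5 = {1, 2, 3, 4, 5} by decide]
  simp [Finset.prod_insert, mul_assoc]

theorem taskSTR : TaskSTR := by
  constructor
  · rintro m ⟨r, hr1, hr5, a, ha1, hdec, hpos, hsq⟩
    let b : ℕ → ℕ := fun i => if i ≤ r then a i else 0
    have hb1 : b 1 = m := by simp only [b, if_pos hr1, ha1]
    have hm : 1 ≤ m := by rw [← ha1]; exact hpos 1 le_rfl hr1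
    have hstep : ∀ i j, 1 ≤ i → i < j → b j ≤ b i := by
      intro i j hi hij
      by_cases hj : j ≤ r
      · simp only [b, if_pos hj, if_pos (hij.le.trans hj)]
        exact (hdec i j hi hij hj).le
      · simp only [b, if_neg hj]
        exact Nat.zero_le _
    have h21 : b 2 < m := by
      by_cases hj : 2 ≤ r
      · simp only [b, if_pos hj]
        rw [← ha1]
        exact hdec 1 2 le_rfl (by norm_num) hj
      · simp only [b, if_neg hj]
        omega
    have hprod : ∏ i ∈ Icc 1 5, (b i).factorial = ∏ i ∈ Icc 1 r, (a i).factorial := by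
      have hsub : Icc 1 r ⊆ Icc 1 5 := Icc_subset_Icc_right hr5
      rw [← Finset.prod_subset hsub (f := fun i => (b i).factorial)]
      · apply Finset.prod_congr rfl
        intro i hi
        have := (mem_Icc.1 hi).2
        simp only [b, if_pos this]
      · intro i hi hni
        have h1 : ¬ i ≤ r := fun h => hni (mem_Icc.2 ⟨(mem_Icc.1 hi).1, h⟩)
        simp only [b, if_neg h1, Nat.factorial_zero]
    rw [← hprod, prod_Icc_one_five, hb1] at hsq
    refine ⟨b 2, b 3, b 4, b 5, hstep 4 5 (by norm_num) (by norm_num),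
      hstep 3 4 (by norm_num) (by norm_num), hstep 2 3 (by norm_num) (by norm_num), h21, ?_⟩
    apply isSquare_of_mul_sq (c := (b 2).factorial * (b 4).factorial)
      (mul_ne_zero (Nat.factorial_ne_zero _) (Nat.factorial_ne_zero _))
    have e1 := blk_mul_factorial h21.le
    have e2 := blk_mul_factorial (hstep 3 4 (by norm_num) (by norm_num))
    rw [← e1, ← e2] at hsq
    convert hsq using 1
    ring
  · intro k p hk hkp hp
    have hkp1 : 2 * p ≤ k * p := Nat.mul_le_mul_right p hk
    let a : ℕ → ℕ := fun i => match i with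
      | 1 => k * p
      | 2 => k * p - 1
      | 3 => p
      | 4 => p - 1
      | 5 => k
      | 6 => k - 1
      | _ => 0
    refine ⟨6, by norm_num, le_rfl, a, rfl, ?_, ?_, ?_⟩
    · intro i j hi hij hj
      have h1 : i = 1 ∨ i = 2 ∨ i = 3 ∨ i = 4 ∨ i = 5 := by omega
      have h2 : j = 2 ∨ j = 3 ∨ j = 4 ∨ j = 5 ∨ j = 6 := by omega
      rcases h1 with rfl | rfl | rfl | rfl | rfl <;> rcases h2 with rfl | rfl | rfl | rfl | rfl <;>
        first | (exfalso; omega) | (simp only [a]; omega)
    · intro i hi hi6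
      have h1 : i = 1 ∨ i = 2 ∨ i = 3 ∨ i = 4 ∨ i = 5 ∨ i = 6 := by omega
      rcases h1 with rfl | rfl | rfl | rfl | rfl | rfl <;> simp only [a] <;> omega
    · rw [prod_Icc_one_six]
      simp only [a]
      have e1 : (k * p).factorial = k * p * (k * p - 1).factorial :=
        (Nat.mul_factorial_pred (by omega)).symm
      have e2 : p.factorial = p * (p - 1).factorial := (Nat.mul_factorial_pred (by omega)).symm
      have e3 : k.factorial = k * (k - 1).factorial := (Nat.mul_factorial_pred (by omega)).symm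
      rw [e1, e2, e3]
      exact ⟨k * p * (k * p - 1).factorial * (p - 1).factorial * (k - 1).factorial, by ring⟩

end Pool.Agent.H672R3.D6
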